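import Pool.Agent.helper16.CVL.SpecD

/-! # Project cvd:, row GDP (helper53): bounded loss gives bounded loss in every small ball -/

set_option autoImplicit false

open Complex Metric Set Filter Topology MeasureTheory
open HY (UD T S hd UN RM)
open RT (Dyn it Hon PB VC Lv UC TD rm lf cr pd bl gr hdf Lf IB)
open RB (VL LO FLS FL CLS FR TL TLL INN)
open PL (DK ht tr SUBH INR)
open CVL

noncomputable section

namespace CVD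

/-- the lift of `f^t` which fixes `0`, with the dictionary for `hdf`. -/
theorem GDP_lift (hLEV : LEV_stmt) (hTLF : RT.TLF_stmt) (hTDF : RT.TDF_stmt) (Y : Dyn) (s : ℝ) (hS : RA.Sys Y s) (x : ℂ) (hx : x ∈ Y.J)
    (n t : ℕ) : TD s (VL Y (n + t) x) ∧ x ∈ VL Y (n + t) x ∧ TD s (VL Y n (it Y t x)) ∧ it Y t x ∈ VL Y n (it Y t x) ∧
    ∃ F : ℂ → ℂ, Lf (it Y t) (VL Y (n + t) x) (VL Y n (it Y t x)) x (it Y t x) F ∧ F 0 = 0 ∧
    ∀ z ∈ UD, PL.hq F z = hdf (it Y t) (VL Y (n + t) x) (VL Y n (it Y t x)) (rm (VL Y (n + t) x) x z) := by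
  obtain ⟨-, -, hJ, hlev⟩ := hLEV Y s hS
  obtain ⟨hTW, hxW, -, -, -, -, hit⟩ := hlev x hx (n + t)
  obtain ⟨hTV, hxV, -⟩ := hlev (it Y t x) (hJ x hx t).1 n
  obtain ⟨hd1, hm1, -⟩ := hit t (Nat.le_add_left t n)
  rw [Nat.add_sub_cancel] at hm1
  have h0 : (0 : ℂ) ∈ UD := by simp [UD]
  have e1 : rm (VL Y (n + t) x) x 0 = x := (hTDF s _ hTW x hxW).1.val
  have e2 : rm (VL Y n (it Y t x)) (it Y t x) 0 = it Y t x := (hTDF s _ hTV _ hxV).1.val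
  obtain ⟨F, hF, hF0, hFh⟩ := hTLF s _ _ (it Y t) hTW hTV hd1 hm1 x hxW (it Y t x) hxV 0 h0 0 h0 (by rw [e1, e2])
  refine ⟨hTW, hxW, hTV, hxV, F, hF, hF0, fun z hz => ?_⟩
  rw [← hFh z hz]
  unfold PL.hq hd
  ring

theorem GDP (hLEV : LEV_stmt) (hNFP : PL.NFP_stmt) (hTLF : RT.TLF_stmt) (hTPM : RT.TPM_stmt) (hTDF : RT.TDF_stmt) : GDP_stmt := by
  intro a ρ ha hρ
  obtain ⟨a', ha', hN⟩ := hNFP a ρ ha hρ
  refine ⟨a', ha', ?_⟩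
  intro Y s hS x hx n t hLO p hp hpp
  obtain ⟨hTW, hxW, hTV, hxV, F, ⟨hFd, hFm, -⟩, -, hq⟩ := GDP_lift hLEV hTLF hTDF Y s hS x hx n t
  obtain ⟨z₀, hz₀, hz₁, hz₂⟩ := hLO
  obtain ⟨hUC, -, -, -, hb, -, hrm⟩ := hTDF s _ hTW x hxW
  obtain ⟨u, hu, hu1, hu2⟩ := (hb z₀ hz₀).2.2.2
  obtain ⟨v, hv, hv1, hv2⟩ := (hb p hp).2.2.2
  obtain ⟨w, hw, hw1, hw2⟩ := hN F hFd hFm u v (by rw [hu2]; exact hz₁) (by rw [hq u hu, hu1]; exact hz₂)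
    (by rw [hv2]; exact hpp)
  refine ⟨rm (VL Y (n + t) x) x w, (hrm w hw).1, ?_, ?_⟩
  · have h2 := (((hTPM s _ x _ hTW hUC).2 v hv).2.1) w hw
    rw [hv1] at h2
    exact h2.trans hw1
  · rw [← hq w hw]; exact hw2

end CVD
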